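import Pool.Agent.helper53.DC.SpecR

/-! Module dc:R1 (helper98): relations of the geometric representation. -/

set_option autoImplicit false

namespace Pool.Agent.helper53.DC

/-- the matrix with row `a` equal to `c b` -/
noncomputable def R1_T {B : Type} [DecidableEq B] (c : B → B → ℝ) (a b : B) : Matrix B B ℝ :=
  Matrix.of fun k l => if k = a then c b l else 0

theorem R1_mul {B : Type} [Fintype B] [DecidableEq B] (c : B → B → ℝ) (a b a' b' : B) :
    R1_T c a b * R1_T c a' b' = c b a' • R1_T c a b' := by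
  ext k l
  rw [Matrix.mul_apply, Matrix.smul_apply]
  show ∑ x, (if k = a then c b x else 0) * (if x = a' then c b' l else 0) =
    c b a' • (if k = a then c b' l else 0)
  rw [Finset.sum_eq_single a']
  · rw [if_pos rfl]
    split_ifs
    · rfl
    · simp
  · intro x _ hx
    rw [if_neg hx, mul_zero]
  · intro h
    exact absurd (Finset.mem_univ _) h

theorem R1_sg {B : Type} [DecidableEq B] (c : B → B → ℝ) (i : B) : sgA c i = 1 + R1_T c i i := by
  ext k l
  rw [Matrix.add_apply, Matrix.one_apply]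
  rfl

theorem R1_diag {B : Type} (M : CoxeterMatrix B) (i : B) : cc M i i = -2 := by
  unfold cc
  rw [M.diagonal i, Nat.cast_one, div_one, Real.cos_pi]
  norm_num

theorem R1_symm {B : Type} (M : CoxeterMatrix B) (i j : B) : cc M i j = cc M j i := by
  unfold cc
  rw [M.symmetric i j]

/-- the powers -/
theorem R1_pow {B : Type} [Fintype B] [DecidableEq B] (M : CoxeterMatrix B) (i j : B) (θ : ℝ)
    (hθ : cc M i j = 2 * Real.cos θ) (n : ℕ) :
    (Real.sin θ ^ 2) • (sgA (cc M) i * sgA (cc M) j) ^ n = (Real.sin θ ^ 2) • (1 : Matrix B B ℝ) +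
      (Real.sin (n * θ) ^ 2) • R1_T (cc M) i i +
      (Real.sin (n * θ) * Real.sin (n * θ + θ)) • R1_T (cc M) i j +
      (Real.sin (n * θ - θ) * Real.sin (n * θ)) • R1_T (cc M) j i +
      (Real.sin (n * θ) ^ 2) • R1_T (cc M) j j := by
  have hji : cc M j i = 2 * Real.cos θ := by rw [← R1_symm, hθ]
  have hX : sgA (cc M) i * sgA (cc M) j = 1 + R1_T (cc M) i i + R1_T (cc M) j j +
      (2 * Real.cos θ) • R1_T (cc M) i j := by
    rw [R1_sg, R1_sg, add_mul, mul_add, mul_add, R1_mul, hθ]
    simp only [one_mul, mul_one]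
    abel
  have m1 : ∀ b, (sgA (cc M) i * sgA (cc M) j) * R1_T (cc M) i b =
      ((2 * Real.cos θ) ^ 2 - 1) • R1_T (cc M) i b + (2 * Real.cos θ) • R1_T (cc M) j b := by
    intro b
    rw [hX, add_mul, add_mul, add_mul, one_mul, R1_mul, R1_mul, Matrix.smul_mul, R1_mul, hji,
      R1_diag, smul_smul]
    module
  have m2 : ∀ b, (sgA (cc M) i * sgA (cc M) j) * R1_T (cc M) j b =
      (-(2 * Real.cos θ)) • R1_T (cc M) i b - R1_T (cc M) j b := by
    intro b
    rw [hX, add_mul, add_mul, add_mul, one_mul, R1_mul, R1_mul, Matrix.smul_mul, R1_mul, hθ,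
      R1_diag, smul_smul]
    module
  induction n with
  | zero => simp
  | succ n ih =>
    rw [pow_succ' (sgA (cc M) i * sgA (cc M) j) n, ← Matrix.mul_smul, ih]
    simp only [mul_add, Matrix.mul_smul, m1, m2, mul_one]
    rw [hX]
    have e : ((n + 1 : ℕ) : ℝ) * θ = n * θ + θ := by push_cast; ring
    rw [e]
    set x := (n : ℝ) * θ
    have s2 : Real.sin (x + θ + θ) = Real.sin (x + θ) * Real.cos θ + Real.cos (x + θ) * Real.sin θ :=
      Real.sin_add _ _
    have s3 : Real.sin (x + θ - θ) = Real.sin x := by rw [add_sub_cancel_right]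
    rw [s2, s3, Real.sin_add, Real.cos_add, Real.sin_sub]
    have t1 := Real.sin_sq_add_cos_sq θ
    have t2 := Real.sin_sq_add_cos_sq x
    set a := Real.sin x
    set b := Real.cos x
    set s := Real.sin θ
    set c := Real.cos θ
    set T1 := R1_T (cc M) i i
    set T2 := R1_T (cc M) i j
    set T3 := R1_T (cc M) j i
    set T4 := R1_T (cc M) j j
    match_scalars <;>
      first
        | ring1
        | linear_combination a ^ 2 * t1 - s ^ 2 * t2
        | linear_combination (s * a * b + 3 * c * a ^ 2) * t1 - 2 * s ^ 2 * c * t2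

theorem R1 : R1_stmt := by
  intro B _ _ M i j
  by_cases h0 : M i j = 0
  · rw [h0, pow_zero]
  by_cases hij : i = j
  · subst hij
    rw [M.diagonal i, pow_one, R1_sg, add_mul, mul_add, mul_add, R1_mul, R1_diag]
    simp only [one_mul, mul_one]
    module
  have h1 : M i j ≠ 1 := M.off_diagonal i j hij
  have h2 : 2 ≤ M i j := by omega
  have h3 : (2 : ℝ) ≤ (M i j : ℝ) := by exact_mod_cast h2
  have hpos : (0 : ℝ) < (M i j : ℝ) := by linarith
  have key := R1_pow M i j (Real.pi / (M i j : ℝ)) rfl (M i j)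
  have e : (M i j : ℝ) * (Real.pi / (M i j : ℝ)) = Real.pi := by
    field_simp
  rw [e, Real.sin_pi] at key
  have hs : Real.sin (Real.pi / (M i j : ℝ)) ≠ 0 := by
    refine (Real.sin_pos_of_pos_of_lt_pi (div_pos Real.pi_pos hpos) ?_).ne'
    rw [div_lt_iff₀ hpos]
    nlinarith [Real.pi_pos]
  have hs2 : Real.sin (Real.pi / (M i j : ℝ)) ^ 2 ≠ 0 := pow_ne_zero 2 hs
  simp only [ne_eq, OfNat.ofNat_ne_zero, not_false_eq_true, zero_pow, zero_smul, zero_mul,
    mul_zero, add_zero] at key
  exact smul_right_injective _ hs2 key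

end Pool.Agent.helper53.DC
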