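import Pool.Agent.helper58.DC.Spec1

/-!
# Module dq:IO (helper98): irreducible characters of product subgroups
-/

set_option autoImplicit false

namespace Pool.Agent.helper98.DC

open Pool.Agent.helper58.DC

/-- a product subgroup is the product of its factors -/
def IO_equiv {G T : Type} [Group G] (H : T → Subgroup G) :
    (Subgroup.pi Set.univ H : Subgroup (T → G)) ≃* (∀ t, H t) where
  toFun x := fun t => ⟨x.1 t, (Subgroup.mem_pi Set.univ).1 x.2 t trivial⟩
  invFun y := ⟨fun t => (y t : G), (Subgroup.mem_pi Set.univ).2 fun t _ => (y t).2⟩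
  left_inv _ := rfl
  right_inv _ := rfl
  map_mul' _ _ := rfl

theorem IO (hIRT : IRT_stmt) (hIRP : IRP_stmt) (hIRC : IRC_stmt) (hIRU : IRU_stmt) : IO_stmt := by
  classical
  intro G T _ _ _ H
  refine ⟨?_, ?_, ?_⟩
  · intro ψ hψ
    refine ⟨?_, ?_⟩
    · intro g hg
      rw [Subgroup.mem_pi] at hg
      push Not at hg
      obtain ⟨t, -, ht⟩ := hg
      exact Finset.prod_eq_zero (Finset.mem_univ t) ((hψ t).1 _ ht)
    · exact hIRT _ _ (IO_equiv H) _
        (hIRP T (fun t => H t) (fun t h => ψ t (h : G)) (fun t => (hψ t).2))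
  · intro ψ' hψ'
    have h1 := hIRT _ _ (IO_equiv H).symm _ hψ'.2
    obtain ⟨χ, hχ, hθ⟩ := hIRC T (fun t => H t) _ h1
    set ψ : T → G → ℂ := fun t g => if h : g ∈ H t then χ t ⟨g, h⟩ else 0 with hψ
    have hval : ∀ t (h : H t), ψ t (h : G) = χ t h := by
      intro t h
      simp only [hψ]
      rw [dif_pos h.2]
    have hval0 : ∀ t g, g ∉ H t → ψ t g = 0 := by
      intro t g hg
      simp only [hψ]
      rw [dif_neg hg]
    refine ⟨ψ, fun t => ⟨hval0 t, ?_⟩, ?_⟩
    · have : (fun h : H t => ψ t (h : G)) = χ t := funext fun h => hval t h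
      rw [this]
      exact hχ t
    · funext x
      by_cases hx : x ∈ (Subgroup.pi Set.univ H : Subgroup (T → G))
      · have h2 := congrFun hθ (IO_equiv H ⟨x, hx⟩)
        have h3 : ψ' x = ∏ t, χ t (IO_equiv H ⟨x, hx⟩ t) := h2
        rw [h3]
        exact Finset.prod_congr rfl fun t _ => hval t (IO_equiv H ⟨x, hx⟩ t)
      · rw [hψ'.1 x hx]
        rw [Subgroup.mem_pi] at hx
        push Not at hx
        obtain ⟨t, -, ht⟩ := hx
        exact Finset.prod_eq_zero (Finset.mem_univ t) (hval0 t _ ht)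
  · intro ψ φ hψ hφ h
    have h1 := hIRU T (fun t => H t) (fun t h => ψ t (h : G)) (fun t h => φ t (h : G))
      (fun t => (hψ t).2) (fun t => (hφ t).2) (fun x => congrFun h (fun t => (x t : G)))
    funext t g
    by_cases hg : g ∈ H t
    · exact congrFun (congrFun h1 t) ⟨g, hg⟩
    · rw [(hψ t).1 g hg, (hφ t).1 g hg]

end Pool.Agent.helper98.DC
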