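import Pool.Agent.helper58.DC.Spec1

/-!
# Module dq:IRP (helper98): finite products of irreducible characters
-/

set_option autoImplicit false

namespace Pool.Agent.helper98.DC

open Pool.Agent.helper58.DC

/-- the trivial character -/
theorem IRP_one (H : Type) [Group H] : (fun _ : H => (1 : ℂ)) ∈ Irr H := by
  refine ⟨ℂ, inferInstance, inferInstance, inferInstance, 1, ?_, ?_⟩
  · have hne : (⊥ : Subrepresentation (1 : Representation ℂ H ℂ)) ≠ ⊤ := by
      intro h
      have h1 : (⊥ : Submodule ℂ ℂ) = ⊤ :=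
        congrArg Subrepresentation.toSubmodule h
      exact bot_ne_top h1
    have : Nontrivial (Subrepresentation (1 : Representation ℂ H ℂ)) := ⟨⟨⊥, ⊤, hne⟩⟩
    refine IsSimpleOrder.mk fun S => ?_
    rcases eq_bot_or_eq_top S.toSubmodule with h | h
    · left
      exact Subrepresentation.toSubmodule_injective h
    · right
      exact Subrepresentation.toSubmodule_injective h
  · funext g
    show LinearMap.trace ℂ ℂ ((1 : Representation ℂ H ℂ) g) = 1
    rw [MonoidHom.one_apply, LinearMap.trace_one]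
    simp

theorem IRP (hIRT : IRT_stmt) (hIRP2 : IRP2_stmt) : IRP_stmt := by
  intro T
  refine @Fintype.induction_empty_option (fun T _ => ∀ (H : T → Type) [∀ t, Group (H t)]
    [∀ t, Finite (H t)] (χ : ∀ t, H t → ℂ), (∀ t, χ t ∈ Irr (H t)) →
      (fun x : ∀ t, H t => ∏ t, χ t (x t)) ∈ Irr (∀ t, H t)) ?_ ?_ ?_ T
  · intro α β _ e ih H _ _ χ hχ
    let _ : Fintype α := Fintype.ofEquiv β e.symm
    have h1 := ih (fun a => H (e a)) (fun a => χ (e a)) (fun a => hχ (e a))
    let E : (∀ b, H b) ≃* (∀ a, H (e a)) :=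
      { Equiv.piCongrLeft' H e.symm with map_mul' := fun _ _ => rfl }
    have h2 := hIRT _ _ E _ h1
    have h3 : (fun x : ∀ b, H b => ∏ b, χ b (x b)) =
        fun x : ∀ b, H b => ∏ a, χ (e a) (E x a) := by
      funext x
      exact (Equiv.prod_comp e (fun b => χ b (x b))).symm
    rw [h3]
    exact h2
  · intro H _ _ χ _
    have h1 : (fun x : ∀ t : PEmpty, H t => ∏ t, χ t (x t)) = fun _ => (1 : ℂ) := by
      funext x
      simp
    rw [h1]
    exact IRP_one _
  · intro α _ ih H _ _ χ hχ
    have h1 := ih (fun a => H (some a)) (fun a => χ (some a)) (fun a => hχ (some a))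
    have h2 := hIRP2 (H none) (∀ a, H (some a)) (χ none) (hχ none) _ h1
    let E : (∀ t, H t) ≃* (H none × ∀ a, H (some a)) :=
      { Equiv.piOptionEquivProd with map_mul' := fun _ _ => rfl }
    have h3 := hIRT _ _ E _ h2
    have h4 : (fun x : ∀ t, H t => ∏ t, χ t (x t)) =
        fun x : ∀ t, H t => χ none (E x).1 * ∏ a, χ (some a) ((E x).2 a) := by
      funext x
      rw [Fintype.prod_option]
      rfl
    rw [h4]
    exact h3

end Pool.Agent.helper98.DC
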