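import Pool.Agent.helper58.DC.Spec1

/-!
# Module dq:NM (helper98): naturality under automorphisms
-/

set_option autoImplicit false

namespace Pool.Agent.helper98.DC

open Pool.Agent.helper58.DC

section
variable {G : Type} [Group G]

theorem NM_inj (α : MulAut G) :
    Function.Injective (fun P : Subgroup G => P.map α.toMonoidHom) :=
  Subgroup.map_injective α.injective

theorem NM_le (α : MulAut G) (P Q : Subgroup G) :
    P.map α.toMonoidHom ≤ Q.map α.toMonoidHom ↔ P ≤ Q :=
  Subgroup.map_le_map_iff_of_injective α.injective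

theorem NM_lt (α : MulAut G) (P Q : Subgroup G) :
    P.map α.toMonoidHom < Q.map α.toMonoidHom ↔ P < Q := by
  rw [lt_iff_le_and_ne, lt_iff_le_and_ne, NM_le, (NM_inj α).ne_iff]

theorem NM_mem (α : MulAut G) (C : Finset (Subgroup G)) (P : Subgroup G) :
    P ∈ chainMap α C ↔ ∃ Q ∈ C, Q.map α.toMonoidHom = P := by
  classical
  unfold chainMap
  exact Finset.mem_image

theorem NM_memmap (α : MulAut G) (C : Finset (Subgroup G)) (P : Subgroup G) :
    P.map α.toMonoidHom ∈ chainMap α C ↔ P ∈ C := by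
  rw [NM_mem]
  constructor
  · rintro ⟨Q, hQ, h⟩
    rwa [← NM_inj α h]
  · intro h
    exact ⟨P, h, rfl⟩

theorem NM_card (α : MulAut G) (C : Finset (Subgroup G)) : (chainMap α C).card = C.card := by
  classical
  unfold chainMap
  exact Finset.card_image_of_injective _ (NM_inj α)

theorem NM_rk (α : MulAut G) (C : Finset (Subgroup G)) (P : Subgroup G) :
    rk (chainMap α C) (P.map α.toMonoidHom) = rk C P := by
  classical
  unfold rk
  have h : (chainMap α C).filter (· < P.map α.toMonoidHom) = chainMap α (C.filter (· < P)) := by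
    ext Q
    rw [Finset.mem_filter, NM_mem, NM_mem]
    constructor
    · rintro ⟨⟨R, hR, rfl⟩, h⟩
      exact ⟨R, Finset.mem_filter.2 ⟨hR, (NM_lt α _ _).1 h⟩, rfl⟩
    · rintro ⟨R, hR, rfl⟩
      rw [Finset.mem_filter] at hR
      exact ⟨⟨R, hR.1, rfl⟩, (NM_lt α _ _).2 hR.2⟩
  calc ((chainMap α C).filter (· < P.map α.toMonoidHom)).card
      = (chainMap α (C.filter (· < P))).card := by rw [h]
    _ = (C.filter (· < P)).card := NM_card _ _

theorem NM_nth (α : MulAut G) (C : Finset (Subgroup G)) (j : ℕ) :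
    nth (chainMap α C) j = (nth C j).map α.toMonoidHom := by
  classical
  unfold nth
  apply le_antisymm
  · refine iSup₂_le fun P hP => ?_
    rw [Finset.mem_filter, NM_mem] at hP
    obtain ⟨⟨Q, hQ, rfl⟩, h⟩ := hP
    rw [NM_rk] at h
    rw [NM_le]
    exact le_iSup₂ (f := fun P (_ : P ∈ C.filter fun P => rk C P ≤ j) => P) Q
      (Finset.mem_filter.2 ⟨hQ, h⟩)
  · rw [Subgroup.map_le_iff_le_comap]
    refine iSup₂_le fun Q hQ => ?_
    rw [Finset.mem_filter] at hQ
    rw [← Subgroup.map_le_iff_le_comap]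
    exact le_iSup₂ (f := fun P (_ : P ∈ (chainMap α C).filter fun P => rk (chainMap α C) P ≤ j) =>
      P) (Q.map α.toMonoidHom)
      (Finset.mem_filter.2 ⟨(NM_memmap α C Q).2 hQ.1, by rw [NM_rk]; exact hQ.2⟩)

theorem NM_norm (α : MulAut G) (P : Subgroup G) :
    Subgroup.normalizer ((P.map α.toMonoidHom : Subgroup G) : Set G) =
      (Subgroup.normalizer (P : Set G)).map α.toMonoidHom :=
  (Subgroup.map_equiv_normalizer_eq P α).symm

theorem NM_memm (α : MulAut G) (P : Subgroup G) (g : G) :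
    g ∈ P.map α.toMonoidHom ↔ α⁻¹ g ∈ P := by
  rw [Subgroup.mem_map]
  constructor
  · rintro ⟨x, hx, rfl⟩
    have : α⁻¹ (α.toMonoidHom x) = x := by
      show α⁻¹ (α x) = x
      simp
    rwa [this]
  · intro h
    refine ⟨α⁻¹ g, h, ?_⟩
    show α (α⁻¹ g) = g
    simp

theorem NM_nrm (α : MulAut G) (C : Finset (Subgroup G)) :
    nrm (chainMap α C) = (nrm C).map α.toMonoidHom := by
  ext g
  rw [NM_memm]
  unfold nrm
  simp only [Subgroup.mem_iInf]
  constructor
  · intro h P hP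
    have h1 := h _ ((NM_memmap α C P).2 hP)
    rwa [NM_norm, NM_memm] at h1
  · intro h P hP
    rw [NM_mem] at hP
    obtain ⟨Q, hQ, rfl⟩ := hP
    rw [NM_norm, NM_memm]
    exact h Q hQ

theorem NM_mapmul (α β : MulAut G) (P : Subgroup G) :
    P.map (α * β).toMonoidHom = (P.map β.toMonoidHom).map α.toMonoidHom := by
  ext g
  rw [NM_memm, NM_memm, NM_memm, mul_inv_rev]
  rfl

theorem NM_mapone (P : Subgroup G) : P.map (1 : MulAut G).toMonoidHom = P := by
  ext g
  rw [NM_memm]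
  simp

theorem NM_mul (α β : MulAut G) (C : Finset (Subgroup G)) :
    chainMap (α * β) C = chainMap α (chainMap β C) := by
  ext P
  rw [NM_mem, NM_mem]
  constructor
  · rintro ⟨Q, hQ, rfl⟩
    exact ⟨Q.map β.toMonoidHom, (NM_memmap β C Q).2 hQ, (NM_mapmul α β Q).symm⟩
  · rintro ⟨Q, hQ, rfl⟩
    rw [NM_mem] at hQ
    obtain ⟨R, hR, rfl⟩ := hQ
    exact ⟨R, hR, NM_mapmul α β R⟩

theorem NM_one (C : Finset (Subgroup G)) : chainMap (1 : MulAut G) C = C := by
  ext P
  rw [NM_mem]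
  constructor
  · rintro ⟨Q, hQ, rfl⟩
    rwa [NM_mapone]
  · intro h
    exact ⟨P, h, NM_mapone P⟩

theorem NM_pgroup (p : ℕ) (α : MulAut G) (P : Subgroup G) (h : IsPGroup p P) :
    IsPGroup p (P.map α.toMonoidHom : Subgroup G) := h.map α.toMonoidHom

theorem NM_inv (α : MulAut G) (P : Subgroup G) :
    (P.map α⁻¹.toMonoidHom).map α.toMonoidHom = P := by
  rw [← NM_mapmul, mul_inv_cancel, NM_mapone]

theorem NM_op (p : ℕ) (α : MulAut G) (H P : Subgroup G) (h : IsOp p H P) :
    IsOp p (H.map α.toMonoidHom) (P.map α.toMonoidHom) := by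
  obtain ⟨⟨h1, h2, h3⟩, h4⟩ := h
  refine ⟨⟨(NM_le α _ _).2 h1, NM_pgroup p α P h2, ?_⟩, ?_⟩
  · rw [NM_norm, NM_le]
    exact h3
  · rintro Q ⟨g1, g2, g3⟩
    have e := NM_inv α Q
    rw [← e] at g1 g3 ⊢
    rw [NM_le] at g1 ⊢
    refine h4 ⟨g1, NM_pgroup p α⁻¹ Q g2, ?_⟩
    rwa [NM_norm, NM_le] at g3

theorem NM_rad (p : ℕ) (α : MulAut G) (C : Finset (Subgroup G)) (h : IsRadical p C) :
    IsRadical p (chainMap α C) := by
  classical
  refine ⟨?_, ?_, ?_⟩
  · intro P hP Q hQ hne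
    rw [Finset.mem_coe, NM_mem] at hP hQ
    obtain ⟨P', hP', rfl⟩ := hP
    obtain ⟨Q', hQ', rfl⟩ := hQ
    have hne' : P' ≠ Q' := fun h => hne (by rw [h])
    rcases h.chain hP' hQ' hne' with h | h
    · left
      exact (NM_le α _ _).2 h
    · right
      exact (NM_le α _ _).2 h
  · intro P hP
    rw [NM_mem] at hP
    obtain ⟨P', hP', rfl⟩ := hP
    exact NM_pgroup p α P' (h.isPGroup P' hP')
  · obtain ⟨P₀, h0, h1, h2, h3⟩ := h.radical
    refine ⟨P₀.map α.toMonoidHom, (NM_memmap α C P₀).2 h0, ?_, ?_, ?_⟩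
    · intro P hP
      rw [NM_mem] at hP
      obtain ⟨P', hP', rfl⟩ := hP
      exact (NM_le α _ _).2 (h1 P' hP')
    · have := NM_op p α _ _ h2
      rwa [Subgroup.map_top_of_surjective _ α.surjective] at this
    · intro P hP hne
      rw [NM_mem] at hP
      obtain ⟨P', hP', rfl⟩ := hP
      have hne' : P' ≠ P₀ := fun h => hne (by rw [h])
      have h4 := NM_op p α _ _ (h3 P' hP' hne')
      rw [← NM_nrm] at h4
      have h5 : chainMap α (C.filter (· ≤ P')) =
          (chainMap α C).filter (· ≤ P'.map α.toMonoidHom) := by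
        ext Q
        rw [Finset.mem_filter, NM_mem, NM_mem]
        constructor
        · rintro ⟨R, hR, rfl⟩
          rw [Finset.mem_filter] at hR
          exact ⟨⟨R, hR.1, rfl⟩, (NM_le α _ _).2 hR.2⟩
        · rintro ⟨⟨R, hR, rfl⟩, h⟩
          exact ⟨R, Finset.mem_filter.2 ⟨hR, (NM_le α _ _).1 h⟩, rfl⟩
      have h6 : nrm ((chainMap α C).filter (· ≤ P'.map α.toMonoidHom)) =
          nrm (chainMap α (C.filter (· ≤ P'))) := by rw [h5]
      have h7 : IsOp p (nrm ((chainMap α C).filter (· ≤ P'.map α.toMonoidHom)))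
          (P'.map α.toMonoidHom) := by
        rw [h6]
        exact h4
      exact h7

end

theorem NM : NM_stmt := fun _ _ _ α C =>
  ⟨NM_nth α C, NM_rk α C, NM_card α C, NM_nrm α C, fun β => NM_mul α β C, NM_one C,
    fun p h => NM_rad p α C h⟩

end Pool.Agent.helper98.DC
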