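import Pool.Agent.helper58.DC.Spec1

/-!
# Module dq:PA (helper98): assembled pairs
-/

set_option autoImplicit false

namespace Pool.Agent.helper98.DC

open Pool.Agent.helper58.DC

theorem PA_val {T : Type} (s : Finset T) (p : ℕ) [Fact p.Prime] (n : T → ℕ)
    (hn : ∀ t, 0 < n t) : padicValNat p (∏ t ∈ s, n t) = ∑ t ∈ s, padicValNat p (n t) := by
  classical
  induction s using Finset.induction_on with
  | empty => simp
  | insert a s ha ih =>
    rw [Finset.prod_insert ha, Finset.sum_insert ha,
      padicValNat.mul (hn a).ne' (Finset.prod_ne_zero_iff.2 fun t _ => (hn t).ne'), ih]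

theorem PA (hAS : AS_stmt) (hAU : AU_stmt) (hAX : AX_stmt) (hIO : IO_stmt) (hIP : IP_stmt)
    (hIF : IF_stmt) (hPI : PI_stmt) : PA_stmt := by
  classical
  intro G T _ _ _ p _ M hop χ hχ
  refine ⟨?_, ?_, ?_⟩
  · intro x W hx hW
    obtain ⟨h1, h2, h3⟩ := hAS G T p hop (fun t => (x t).1) (fun t => (hx t).1) W hW
    have hH := hIO G T (fun t => nrm (x t).1)
    have hI := fun t => hIF G (nrm (x t).1)
    refine ⟨⟨h1, ?_, ?_⟩, ?_, ?_⟩
    · show tens (fun t => (x t).2) ∈ IrrOn (nrm (asmC (fun t => (x t).1) W))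
      rw [h3]
      exact hH.1 _ fun t => (hx t).2.1
    · show Induces M (tens fun t => (x t).2) (tens fun _ : T => χ)
      exact (hIP G T M (fun t => nrm (x t).1) (fun t => (x t).2) (fun _ => χ)
        (fun t => (hx t).2.1) (fun _ => hχ)).2 fun t => (hx t).2.2
    · show (asmC (fun t => (x t).1) W).card - 1 = W.card - 1
      rw [h2]
    · choose n hn0 hn using fun t => ((hI t).2 _ (hx t).2.1).1
      have hcard : Nat.card (nrm (asmC (fun t => (x t).1) W)) =
          ∏ t, Nat.card (nrm (x t).1) := by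
        rw [h3]
        exact (hPI G T p (fun t => nrm (x t).1) (fun t => nrm (x t).1)).2.2.2.2
      have htens : (tens (fun t => (x t).2)) 1 = ((∏ t, n t : ℕ) : ℂ) := by
        unfold tens
        push_cast
        exact Finset.prod_congr rfl fun t _ => hn t
      have hfl : ∀ t, ⌊((x t).2 1).re⌋₊ = n t := by
        intro t
        rw [hn t, Complex.natCast_re, Nat.floor_natCast]
      show (padicValNat p (Nat.card (nrm (asmC (fun t => (x t).1) W))) : ℤ) -
        padicValNat p ⌊((tens fun t => (x t).2) 1).re⌋₊ = ∑ t, dfc p (x t)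
      rw [hcard, htens, Complex.natCast_re, Nat.floor_natCast,
        PA_val Finset.univ p (fun t => Nat.card (nrm (x t).1)) (fun t => Nat.card_pos),
        PA_val Finset.univ p n hn0]
      unfold dfc
      rw [Finset.sum_sub_distrib]
      push_cast
      congr 1
      exact Finset.sum_congr rfl fun t _ => by rw [hfl t]
  · rintro x' ⟨hr, hi, hind⟩
    obtain ⟨C, W, hC, hW, hCW⟩ := hAX G T p hop x'.1 hr
    obtain ⟨-, -, h3⟩ := hAS G T p hop C hC W hW
    have hi' : x'.2 ∈ IrrOn (Subgroup.pi Set.univ (fun t => nrm (C t)) : Subgroup (T → G)) := by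
      rw [← h3, hCW]
      exact hi
    obtain ⟨ψ, hψ, hψx⟩ := (hIO G T (fun t => nrm (C t))).2.1 x'.2 hi'
    refine ⟨fun t => (C t, ψ t), W, fun t => ⟨hC t, hψ t, ?_⟩, hW, ?_⟩
    · rw [← hψx] at hind
      exact (hIP G T M (fun t => nrm (C t)) ψ (fun _ => χ) hψ (fun _ => hχ)).1 hind t
    · exact Prod.ext hCW hψx
  · intro x y W V hx hy hW hV h
    have h1 : asmC (fun t => (x t).1) W = asmC (fun t => (y t).1) V := congrArg Prod.fst h
    have h2 : tens (fun t => (x t).2) = tens (fun t => (y t).2) := congrArg Prod.snd h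
    obtain ⟨hCD, hWV⟩ := hAU G T p hop (fun t => (x t).1) (fun t => (y t).1)
      (fun t => (hx t).1) (fun t => (hy t).1) W V hW hV h1
    have hCD' : ∀ t, (x t).1 = (y t).1 := fun t => congrFun hCD t
    have h3 := (hIO G T (fun t => nrm (x t).1)).2.2 (fun t => (x t).2) (fun t => (y t).2)
      (fun t => (hx t).2.1) (fun t => by rw [hCD' t]; exact (hy t).2.1) h2
    refine ⟨?_, hWV⟩
    funext t
    exact Prod.ext (hCD' t) (congrFun h3 t)

end Pool.Agent.helper98.DC
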