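import Mathlib
import Pool.Agent.helper58.DC.Spec3
import Pool.Agent.helper58.DC.MP

/-! Module MPQ: Moebius inversion on the subgroups of a finite group acting on a finite set
(adapted from helper58's module MP). -/

set_option autoImplicit false

namespace Pool.Agent.helper98.DC

open Pool.Agent.helper58.DC Polynomial

section stab

variable {Q T : Type} [Group Q] [MulAction Q T]

/-- The stabiliser of a function. -/
def MPQ_fstab {x : ℕ} (f : T → Fin x) : Subgroup Q where
  carrier := {σ | ∀ t, f (σ • t) = f t}
  mul_mem' := by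
    intro a b ha hb i
    rw [mul_smul, ha, hb]
  one_mem' i := by rw [one_smul]
  inv_mem' := by
    intro a ha i
    have := ha (a⁻¹ • i)
    rw [smul_inv_smul] at this
    exact this.symm

theorem MPQ_card_inv_fun [Finite T] {x : ℕ} (V : Subgroup Q) :
    Nat.card {f : T → Fin x // V ≤ MPQ_fstab f} =
      x ^ Nat.card (MulAction.orbitRel.Quotient V T) := by
  classical
  have e : {f : T → Fin x // V ≤ MPQ_fstab f} ≃
      (MulAction.orbitRel.Quotient V T → Fin x) :=
    { toFun := fun f => Quotient.lift f.1 (by
        intro i j hij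
        obtain ⟨σ, rfl⟩ := hij
        exact f.2 σ.2 j)
      invFun := fun g => ⟨fun i => g (Quotient.mk _ i), by
        intro σ hσ i
        have : (Quotient.mk (MulAction.orbitRel V T) (σ • i)) = Quotient.mk _ i :=
          Quotient.sound ⟨⟨σ, hσ⟩, rfl⟩
        exact congrArg g this⟩
      left_inv := fun f => rfl
      right_inv := fun g => by
        funext q
        induction q using Quotient.inductionOn with
        | h i => rfl }
  rw [Nat.card_congr e, Nat.card_fun]
  simp

end stab

theorem MPQ : MPQ_stmt := by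
  classical
  intro Q T _ _ _ _
  obtain ⟨μ, hμ⟩ := exists_mu (⊥ : Subgroup Q)
  have hfin : Finite (Subgroup Q) := inferInstance
  have := Fintype.ofFinite (Subgroup Q)
  let k : Subgroup Q → ℕ := fun V => Nat.card (MulAction.orbitRel.Quotient V T)
  let P : ℤ[X] := ∑ V, C (μ V) * X ^ k V
  have hP : ∀ z : ℤ, P.eval z = ∑ V, μ V * z ^ k V := fun z => by
    simp [P, eval_finsetSum]
  refine ⟨P, ?_, ?_⟩
  · intro x
    let β : Subgroup Q → ℤ := fun V =>
      (Nat.card {f : T → Fin x // MPQ_fstab f = V} : ℤ)
    have h1 : ∀ V, ∑ᶠ V' : {V' : Subgroup Q // V ≤ V'}, β V'.1 = (x : ℤ) ^ k V := by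
      intro V
      rw [finsum_eq_sum_of_fintype]
      have h2 := MPQ_card_inv_fun (T := T) (x := x) V
      have h3 : (Nat.card {f : T → Fin x // V ≤ MPQ_fstab f}) =
          ∑ V' : {V' : Subgroup Q // V ≤ V'},
            Nat.card {f : T → Fin x // MPQ_fstab f = V'.1} := by
        rw [← Nat.card_sigma]
        refine Nat.card_congr
          { toFun := fun f => ⟨⟨MPQ_fstab f.1, f.2⟩, ⟨f.1, rfl⟩⟩
            invFun := fun y => ⟨y.2.1, by rw [y.2.2]; exact y.1.2⟩
            left_inv := fun f => rfl
            right_inv := fun y => by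
              rcases y with ⟨⟨V', hV'⟩, ⟨f, hf⟩⟩
              dsimp only at hf ⊢
              subst hf
              rfl }
      have h4 : (((∑ V' : {V' : Subgroup Q // V ≤ V'},
            Nat.card {f : T → Fin x // MPQ_fstab f = V'.1} : ℕ)) : ℤ) = (x : ℤ) ^ k V := by
        rw [← h3, h2]
        push_cast
        rfl
      rw [← h4]
      push_cast
      rfl
    have h2 := hμ β _ h1
    rw [finsum_eq_sum_of_fintype] at h2
    rw [hP, ← h2]
    change (Nat.card {f : T → Fin x // MPQ_fstab f = (⊥ : Subgroup Q)} : ℤ) = _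
    congr 1
    refine Nat.card_congr (Equiv.subtypeEquivRight ?_)
    intro f
    rw [eq_bot_iff]
    constructor
    · intro h σ hσ
      exact (Subgroup.mem_bot).1 (h hσ)
    · intro h σ hσ
      exact (Subgroup.mem_bot).2 (h σ hσ)
  · intro b v hb
    rw [hμ b _ hb, finsum_eq_sum_of_fintype, hP]

end Pool.Agent.helper98.DC
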