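import Pool.Agent.helper53.DC.SpecA

/-! Module dc:A1 (helper98): gallery lift. -/

set_option autoImplicit false

namespace Pool.Agent.helper53.DC

section

variable {B W G : Type} [Group W] [Group G] {M : CoxeterMatrix B} (cs : CoxeterSystem M W)
  (lab : W → G)

/-- the step -/
def A1_f (i : B) (p : W × G) : W × G :=
  (p.1 * cs.simple i, p.2 * lab (p.1 * cs.simple i * p.1⁻¹))

theorem A1_inv (h : ∀ r, cs.IsReflection r → lab r * lab r = 1) (i : B) :
    Function.Involutive (A1_f cs lab i) := by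
  rintro ⟨x, g⟩
  have e1 : x * cs.simple i * cs.simple i = x := cs.simple_mul_simple_cancel_right i
  have e2 : x * cs.simple i * cs.simple i * (x * cs.simple i)⁻¹ = x * cs.simple i * x⁻¹ := by
    rw [e1, mul_inv_rev, cs.inv_simple, mul_assoc]
  show (x * cs.simple i * cs.simple i, g * lab (x * cs.simple i * x⁻¹) *
    lab (x * cs.simple i * cs.simple i * (x * cs.simple i)⁻¹)) = (x, g)
  rw [e2, e1, mul_assoc, h _ ⟨x, i, rfl⟩, mul_one]

theorem A1_conj (i j : B) (n : ℕ) : (cs.simple i * cs.simple j) ^ n * cs.simple i *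
    ((cs.simple i * cs.simple j) ^ n)⁻¹ = (cs.simple i * cs.simple j) ^ (2 * n) * cs.simple i := by
  have h : SemiconjBy (cs.simple i) (cs.simple i * cs.simple j)⁻¹ (cs.simple i * cs.simple j) := by
    show cs.simple i * (cs.simple i * cs.simple j)⁻¹ = cs.simple i * cs.simple j * cs.simple i
    rw [mul_inv_rev, cs.inv_simple, cs.inv_simple, mul_assoc]
  have h2 : cs.simple i * ((cs.simple i * cs.simple j)⁻¹) ^ n =
      (cs.simple i * cs.simple j) ^ n * cs.simple i := h.pow_right n
  rw [← inv_pow, mul_assoc, h2, ← mul_assoc, ← pow_add, two_mul]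

/-- the permutation -/
def A1_pi (h : ∀ r, cs.IsReflection r → lab r * lab r = 1) (i : B) : Equiv.Perm (W × G) :=
  (A1_inv cs lab h i).toPerm (A1_f cs lab i)

theorem A1_pow (h : ∀ r, cs.IsReflection r → lab r * lab r = 1) (i j : B) (n : ℕ) (x : W) (g : G) :
    ((A1_pi cs lab h j * A1_pi cs lab h i) ^ n) (x, g) = (x * (cs.simple i * cs.simple j) ^ n,
      g * ((List.range (2 * n)).map (fun k =>
        lab (x * (cs.simple i * cs.simple j) ^ k * cs.simple i * x⁻¹))).prod) := by
  induction n with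
  | zero => simp
  | succ n ih =>
    rw [pow_succ', Equiv.Perm.mul_apply, ih]
    set q := cs.simple i * cs.simple j with hq
    set P := ((List.range (2 * n)).map (fun k => lab (x * q ^ k * cs.simple i * x⁻¹))).prod
    have e0 : 2 * (n + 1) = 2 * n + 1 + 1 := by ring
    rw [e0, List.range_succ, List.range_succ, List.map_append, List.map_append, List.prod_append,
      List.prod_append]
    simp only [List.map_cons, List.map_nil, List.prod_cons, List.prod_nil, mul_one]
    show (x * q ^ n * cs.simple i * cs.simple j, g * P *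
      lab (x * q ^ n * cs.simple i * (x * q ^ n)⁻¹) *
      lab (x * q ^ n * cs.simple i * cs.simple j * (x * q ^ n * cs.simple i)⁻¹)) = _
    have c := A1_conj cs i j n
    rw [← hq] at c
    have e1 : x * q ^ n * cs.simple i * (x * q ^ n)⁻¹ = x * q ^ (2 * n) * cs.simple i * x⁻¹ := by
      rw [mul_inv_rev]
      calc x * q ^ n * cs.simple i * ((q ^ n)⁻¹ * x⁻¹)
          = x * (q ^ n * cs.simple i * (q ^ n)⁻¹) * x⁻¹ := by simp only [mul_assoc]
        _ = _ := by rw [c]; simp only [mul_assoc]
    have e2 : x * q ^ n * cs.simple i * cs.simple j * (x * q ^ n * cs.simple i)⁻¹ =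
        x * q ^ (2 * n + 1) * cs.simple i * x⁻¹ := by
      rw [mul_inv_rev, mul_inv_rev, cs.inv_simple]
      calc x * q ^ n * cs.simple i * cs.simple j * (cs.simple i * ((q ^ n)⁻¹ * x⁻¹))
          = x * (q * (q ^ n * cs.simple i * (q ^ n)⁻¹)) * x⁻¹ := by
            have : x * q ^ n * cs.simple i * cs.simple j = x * (q * q ^ n) := by
              rw [← pow_succ', pow_succ]
              simp only [mul_assoc, hq]
            rw [this]
            simp only [mul_assoc]
        _ = _ := by rw [c, ← mul_assoc q, ← pow_succ']; simp only [mul_assoc]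
    rw [e1, e2]
    refine Prod.ext ?_ ?_
    · show x * q ^ n * cs.simple i * cs.simple j = x * q ^ (n + 1)
      rw [pow_succ]
      simp only [mul_assoc, hq]
    · show g * P * _ * _ = g * (P * _ * _)
      rw [mul_assoc g P, mul_assoc g]

end

theorem A1 : A1_stmt := by
  intro B W G _ _ M cs lab h1 h2
  have hl : M.IsLiftable (A1_pi cs lab h1) := by
    intro i j
    refine Equiv.ext fun p => ?_
    obtain ⟨x, g⟩ := p
    have e : M i j = M j i := M.symmetric i j
    rw [A1_pow, Equiv.Perm.one_apply, e, h2, cs.simple_mul_simple_pow, mul_one, mul_one]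
  set ρ : W →* Equiv.Perm (W × G) := cs.lift ⟨A1_pi cs lab h1, hl⟩ with hρ
  have hs : ∀ i, ρ (cs.simple i) = A1_pi cs lab h1 i := fun i => cs.lift_apply_simple hl i
  have hfst : ∀ x : W, (ρ x⁻¹ (1, 1)).1 = x := by
    intro x
    induction x using cs.simple_induction_right with
    | one => rw [inv_one, map_one]; rfl
    | mul_simple_right w i ih =>
      rw [mul_inv_rev, cs.inv_simple, map_mul, Equiv.Perm.mul_apply, hs]
      show (ρ w⁻¹ (1, 1)).1 * cs.simple i = _
      rw [ih]
  refine ⟨fun x => (ρ x⁻¹ (1, 1)).2, ?_, ?_⟩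
  · show (ρ (1 : W)⁻¹ (1, 1)).2 = 1
    rw [inv_one, map_one]
    rfl
  · intro x i
    show (ρ (x * cs.simple i)⁻¹ (1, 1)).2 = (ρ x⁻¹ (1, 1)).2 * _
    rw [mul_inv_rev, cs.inv_simple, map_mul, Equiv.Perm.mul_apply, hs]
    show (ρ x⁻¹ (1, 1)).2 * lab ((ρ x⁻¹ (1, 1)).1 * cs.simple i * (ρ x⁻¹ (1, 1)).1⁻¹) = _
    rw [hfst]

end Pool.Agent.helper53.DC
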